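import Mathlib
import Pool.Agent.W757.RC.St4
import Pool.Agent.H790R3.RB.TWR

/-! Task RQ-NUM (helper361): there are at most `2 d - 2` marked cycles besides the one at infinity.
Adapted from `Pool.Agent.H790R3.RB.TNUM`. -/

set_option autoImplicit false

open Topology Filter Metric Set MeasureTheory
open Pool.Agent.H790R3.RB

namespace Pool.Agent.W757.RC

namespace W361NUM

theorem inC_of_smul {d n s : ℕ} (S : Sys d n s) {k : Option (Fin s)} {x : Fin n → ℂ} {a : ℂ}
    {q : ℂ × ℂ} (ha : a ≠ 0) (h : S.InC k x (a • q)) : S.InC k x q := by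
  obtain ⟨c, z, hc, hz, he⟩ := h
  refine ⟨a⁻¹ * c, z, mul_ne_zero (inv_ne_zero ha) hc, hz, ?_⟩
  rw [mul_smul, ← he, smul_smul, inv_mul_cancel₀ ha, one_smul]

theorem unique {d n s : ℕ} (S : Sys d n s) {x : Fin n → ℂ} (hx : x ∈ S.U) {k k' : Fin s}
    {q : ℂ × ℂ} {m m' : ℕ} (hm : m ≤ m') (h : S.InC (some k) x ((S.F x)^[m] q))
    (h' : S.InC (some k') x ((S.F x)^[m'] q)) : k = k' := by
  obtain ⟨a, z, ha, hz, he⟩ := h
  obtain ⟨a', z', ha', hz', he'⟩ := h'
  obtain ⟨l, rfl⟩ := Nat.exists_eq_add_of_le hm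
  rw [add_comm, Function.iterate_add_apply, he] at he'
  have h1 : (S.F x)^[l] (a • S.cht (some k) x z) =
      a ^ (d ^ l) • (S.F x)^[l] (S.cht (some k) x z) := hF_iter_smul (S.co x) l a _
  rw [h1] at he'
  have hp : a ^ (d ^ l) ≠ 0 := pow_ne_zero _ ha
  have h2 : (hF (S.co x))^[l] (ch S.b (some k) x z) =
      ((a ^ (d ^ l))⁻¹ * a') • ch S.b (some k') x z' := by
    rw [mul_smul]
    have h3 := congrArg (fun v => (a ^ (d ^ l))⁻¹ • v) he'
    simp only [smul_smul, inv_mul_cancel₀ hp, one_smul] at h3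
    rw [smul_smul]
    exact h3
  have h4 := (S.sep x hx (some k) (some k') z z' _ l hz hz' h2).1
  exact Option.some_injective _ h4

end W361NUM

open W361NUM in
theorem W361_NUM (hONE : StONE) (hLAM : StLAM) : StNUM := by
  intro d n s S x hx hlam hgen
  obtain ⟨c, hwr⟩ := hgen
  have hinf : wr (S.co x) (1, 0) ≠ 0 := (hLAM d n s S).2.2.2.1 x hx (hlam none)
  have hhom := (WR d (S.co x) S.hd).1
  have key : ∀ k : Fin s, ∃ i : Fin (2 * d - 2), ∃ m : ℕ,
      S.InC (some k) x ((S.F x)^[m] (c i, 1)) := by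
    intro k
    obtain ⟨p, hp, hwp, m, hm⟩ := hONE d n s S x hx hlam k
    have hp2 : p.2 ≠ 0 := by
      intro h0
      have e : p = p.1 • ((1, 0) : ℂ × ℂ) := by
        apply Prod.ext
        · simp
        · simp [h0]
      rw [e, hhom] at hwp
      have h1 : p.1 = 0 := by
        rcases mul_eq_zero.1 hwp with h | h
        · exact eq_zero_of_pow_eq_zero h
        · exact absurd h hinf
      exact hp (Prod.ext h1 h0)
    have e : p = p.2 • ((p.1 / p.2, 1) : ℂ × ℂ) := by
      apply Prod.ext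
      · simp only [Prod.smul_fst, smul_eq_mul]
        field_simp
      · simp
    have hw2 : wr (S.co x) (p.1 / p.2, 1) = 0 := by
      rw [e, hhom] at hwp
      rcases mul_eq_zero.1 hwp with h | h
      · exact absurd (eq_zero_of_pow_eq_zero h) hp2
      · exact h
    rw [hwr] at hw2
    have hprod := (mul_eq_zero.1 hw2).resolve_left hinf
    obtain ⟨i, _, hi⟩ := Finset.prod_eq_zero_iff.1 hprod
    rw [sub_eq_zero.1 hi] at e
    refine ⟨i, m, ?_⟩
    have h5 : (S.F x)^[m] p = p.2 ^ (d ^ m) • (S.F x)^[m] (c i, 1) := by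
      conv_lhs => rw [e]
      exact hF_iter_smul (S.co x) m p.2 _
    rw [h5] at hm
    exact inC_of_smul S (pow_ne_zero _ hp2) hm
  choose i m him using key
  have hinj : Function.Injective i := by
    intro k k' hkk
    have h1 := him k
    have h2 := him k'
    rw [← hkk] at h2
    rcases le_total (m k) (m k') with h | h
    · exact unique S hx h h1 h2
    · exact (unique S hx h h2 h1).symm
  have := Fintype.card_le_of_injective i hinj
  rwa [Fintype.card_fin, Fintype.card_fin] at this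

end Pool.Agent.W757.RC
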